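import Pool.Agent.Helper36.PT.Defs

/-!
# ETH hardness of monotone duality: the concrete reduction, as functions on numbers and lists

A 3-CNF formula on `n` variables is a list of rows `Fin n → Option Bool` with at most three
entries different from `none`.  The variables are cut into `D n` groups of `g n` variables;
a block is a triple of groups, a vertex is a block together with an assignment of its three
groups, and an edge is the complement of
`S_(i,h) = {v good, block of v ≠ i, hash_i (part t of v) = h (t-th group of the block of v)}`.
-/

set_option autoImplicit false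

namespace Pool.Agent.Helper50.ETH

open Pool.Agent.Helper36.PT

/-! ### Formulas -/

/-- The formula given by the list of rows `φ` is satisfiable. -/
def Sat {n : ℕ} (φ : List (Fin n → Option Bool)) : Prop :=
  ∃ a : Fin n → Bool, ∀ c ∈ φ, ∃ x : Fin n, c x = some (a x)

/-- Every clause has at most three literals. -/
def Width3 {n : ℕ} (φ : List (Fin n → Option Bool)) : Prop :=
  ∀ c ∈ φ, (Finset.univ.filter (fun x : Fin n => c x ≠ none)).card ≤ 3

/-- The code of a formula: `1^n`, a separator, and for every clause the symbol `some true`
followed by the row. -/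
def code {n : ℕ} (φ : List (Fin n → Option Bool)) : List (Option Bool) :=
  List.replicate n (some true) ++ [none] ++
    (φ.map (fun c => some true :: List.ofFn c)).flatten

/-! ### Parameters -/

/-- The least `k` with `n ≤ k^3 * log₂ (k+2)`. -/
noncomputable def k0 (n : ℕ) : ℕ := mu (n + 1) (fun k => n ≤ k ^ 3 * Nat.log 2 (k + 2))

/-- Number of coefficients of a hash polynomial. -/
noncomputable def kap (n : ℕ) : ℕ := k0 n + 2

/-- Number of bits of a coefficient. -/
noncomputable def rr (n : ℕ) : ℕ := Nat.log 2 (kap n)

/-- Number of variables of a group. -/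
noncomputable def gg (n : ℕ) : ℕ := kap n * rr n

/-- Number of groups. -/
noncomputable def DD (n : ℕ) : ℕ := kap n ^ 2

/-- Number of blocks. -/
noncomputable def mm (n : ℕ) : ℕ := DD n ^ 3

/-- The least prime number `≥ mm n`. -/
noncomputable def qq (n : ℕ) : ℕ := mu (2 * mm n + 1) (fun q => mm n ≤ q ∧ q.Prime)

/-- Number of vertices. -/
noncomputable def nV (n : ℕ) : ℕ := mm n * 2 ^ (3 * gg n)

/-- Number of edges. -/
noncomputable def nE (n : ℕ) : ℕ := mm n * qq n ^ DD n

/-! ### Vertices -/

/-- The block of the vertex `v`. -/
noncomputable def blk (n v : ℕ) : ℕ := v / 2 ^ (3 * gg n)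

/-- The `t`-th group of the block `p`. -/
noncomputable def grp (n p t : ℕ) : ℕ := p / DD n ^ t % DD n

/-- The assignment (a number `< 2^g`) of the `t`-th group of the vertex `v`. -/
noncomputable def part (n v t : ℕ) : ℕ := v / 2 ^ (t * gg n) % 2 ^ gg n

/-- The value of the variable `x` in the `t`-th part of the vertex `v`. -/
noncomputable def bit (n v t x : ℕ) : Bool := dec (part n v t / 2 ^ (x % gg n) % 2 = 1)

/-- The `c`-th coefficient of the assignment `a`. -/
noncomputable def coef (n a c : ℕ) : ℕ := a / 2 ^ (c * rr n) % 2 ^ rr n

/-- The `i`-th hash value of the assignment `a` of a group. -/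
noncomputable def hash (n i a : ℕ) : ℕ :=
  (∑ c ∈ Finset.range (kap n), coef n a c * i ^ c) % qq n

/-- The clause `c` is falsified inside the three groups of the vertex `v`. -/
def Falsified (n : ℕ) (c : List (Option Bool)) (v : ℕ) : Prop :=
  ∀ x, x < n → c.getD x none ≠ none →
    ∃ t, t < 3 ∧ grp n (blk n v) t = x / gg n ∧ c.getD x none = some (!bit n v t x)

/-- The parts of equal groups are equal and no clause is falsified. -/
def Good (n : ℕ) (cl : List (List (Option Bool))) (v : ℕ) : Prop :=
  (∀ t, t < 3 → ∀ t', t' < 3 → grp n (blk n v) t = grp n (blk n v) t' →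
    part n v t = part n v t') ∧ ∀ c ∈ cl, ¬ Falsified n c v

/-- The digit `j` of `h` in base `q`. -/
noncomputable def dig (n h j : ℕ) : ℕ := h / qq n ^ j % qq n

/-- `v ∈ S_(i,h)`. -/
def InS (n : ℕ) (cl : List (List (Option Bool))) (i h v : ℕ) : Prop :=
  blk n v ≠ i ∧ Good n cl v ∧
    ∀ t, t < 3 → hash n i (part n v t) = dig n h (grp n (blk n v) t)

/-- Row number `e` of the edges: `i = e / q^D`, `h = e % q^D`. -/
noncomputable def rowE (n : ℕ) (cl : List (List (Option Bool))) (e : ℕ) : List Bool :=
  (List.range (nV n)).map
    (fun v => !dec (InS n cl (e / qq n ^ DD n) (e % qq n ^ DD n) v))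

/-- All the edges. -/
noncomputable def edges (n : ℕ) (cl : List (List (Option Bool))) : List (List Bool) :=
  (List.range (nE n)).map (rowE n cl)

/-- The input word of the assumed machine (the word of statement S15289 for the hypergraph
`edges n cl` on `nV n` vertices). -/
noncomputable def word (n : ℕ) (cl : List (List (Option Bool))) : List (Option Bool) :=
  List.replicate (nV n) (some true) ++ [none] ++
    ((edges n cl).map (fun r => r.map some ++ [none])).flatten

/-- All bounds in one number. -/
noncomputable def bound (n : ℕ) : ℕ :=
  nV n + nE n + (nE n + 1) * (nV n + 1) + (nV n + 1) ^ (2 * kap n + 2) + 2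

end Pool.Agent.Helper50.ETH
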