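import Pool.Agent.Helper68.PT.Ext2
import Pool.Agent.Helper36.PT.Defs

/-!
# Clocked simulation of an arbitrary stack machine in polynomial time

The configurations of an arbitrary `Turing.FinTM2` are coded by numbers and lists of numbers (the
alphabets of the stacks other than the input stack may be infinite, but only finitely many
symbols are ever pushed); one step is a polynomial time function on the codes, and so is the
iteration of a number of steps given in unary.
-/

set_option autoImplicit false
set_option linter.unusedSectionVars false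

namespace Pool.Agent.Helper50.ETH

open Pool.Agent.Helper36.PT
open Turing.TM2

section general

variable {K : Type} [DecidableEq K] [Fintype K] {Γ : K → Type} {Λ σ : Type} [Fintype Λ]
  [Fintype σ]

/-- The number of an element of a finite type. -/
noncomputable def num {X : Type} [Fintype X] (x : X) : ℕ := (Fintype.equivFin X x : ℕ)

/-- The table of a function on a finite type. -/
noncomputable def tab {X Y : Type} [Fintype X] (f : X → Y) : List Y :=
  List.ofFn (fun i : Fin (Fintype.card X) => f ((Fintype.equivFin X).symm i))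

theorem tab_getD {X Y : Type} [Fintype X] (f : X → Y) (x : X) (d : Y) :
    (tab f).getD (num x) d = f x := by
  unfold tab num
  rw [List.getD_eq_getElem?_getD, List.getElem?_ofFn]
  simp

theorem num_inj {X : Type} [Fintype X] {x y : X} (h : num x = num y) : x = y :=
  (Fintype.equivFin X).injective (Fin.ext h)

open Classical in
/-- The number of a symbol in a list. -/
noncomputable def sc {X : Type} (A : List X) (s : X) : ℕ := A.idxOf s

theorem sc_getD {X Y : Type} (A : List X) (f : X → Y) (s : X) (h : s ∈ A) (d : Y) :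
    (A.map f).getD (sc A s) d = f s := by
  classical
  unfold sc
  have h1 : A.idxOf s < A.length := List.idxOf_lt_length_iff.mpr h
  rw [List.getD_eq_getElem?_getD, List.getElem?_map, List.getElem?_eq_getElem h1]
  simp

/-- The code of the head of a stack. -/
def hd (l : List ℕ) : ℕ := if l.length = 0 then 0 else l.headD 0 + 1

/-- The code of an internal state and the stacks. -/
noncomputable def encS (A : ∀ k, List (Γ k)) (v : σ) (S : ∀ k, List (Γ k)) :
    ℕ × List (List ℕ) := (num v, tab (fun k : K => (S k).map (sc (A k))))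

/-- The code of a configuration. -/
noncomputable def encC (A : ∀ k, List (Γ k)) (c : Cfg Γ Λ σ) : ℕ × (ℕ × List (List ℕ)) :=
  (match c.l with
    | none => 0
    | some l => num l + 1, encS A c.var c.stk)

/-- The effect of a statement on the codes. -/
noncomputable def runS (A : ∀ k, List (Γ k)) :
    Stmt Γ Λ σ → ℕ × List (List ℕ) → ℕ × (ℕ × List (List ℕ))
  | .push k f q => fun x =>
      runS A q (x.1, x.2.set (num k) ((tab fun v => sc (A k) (f v)).getD x.1 0 ::
        x.2.getD (num k) []))
  | .peek k f q => fun x =>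
      runS A q (((tab fun v => (none :: (A k).map some).map fun o => num (f v o)).getD x.1 []).getD
        (hd (x.2.getD (num k) [])) 0, x.2)
  | .pop k f q => fun x =>
      runS A q (((tab fun v => (none :: (A k).map some).map fun o => num (f v o)).getD x.1 []).getD
        (hd (x.2.getD (num k) [])) 0, x.2.set (num k) (x.2.getD (num k) []).tail)
  | .load f q => fun x => runS A q ((tab fun v => num (f v)).getD x.1 0, x.2)
  | .branch f q₁ q₂ => fun x => bif (tab f).getD x.1 false then runS A q₁ x else runS A q₂ x
  | .goto f => fun x => ((tab fun v => num (f v)).getD x.1 0 + 1, x)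
  | .halt => fun x => (0, x)

/-- All symbols pushed by the statement are in the alphabets. -/
def Ok (A : ∀ k, List (Γ k)) : Stmt Γ Λ σ → Prop
  | .push k f q => (∀ v, f v ∈ A k) ∧ Ok A q
  | .peek _ _ q => Ok A q
  | .pop _ _ q => Ok A q
  | .load _ q => Ok A q
  | .branch _ q₁ q₂ => Ok A q₁ ∧ Ok A q₂
  | .goto _ => True
  | .halt => True

theorem Ok.mono {A B : ∀ k, List (Γ k)} (h : ∀ k, ∀ s ∈ A k, s ∈ B k) (q : Stmt Γ Λ σ)
    (hq : Ok A q) : Ok B q := by
  induction q with
  | push k f q ih => exact ⟨fun v => h k _ (hq.1 v), ih hq.2⟩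
  | peek k f q ih => exact ih hq
  | pop k f q ih => exact ih hq
  | load f q ih => exact ih hq
  | branch f q₁ q₂ ih₁ ih₂ => exact ⟨ih₁ hq.1, ih₂ hq.2⟩
  | goto f => trivial
  | halt => trivial

theorem exists_ok (q : Stmt Γ Λ σ) : ∃ A : ∀ k, List (Γ k), Ok A q := by
  induction q with
  | push k f q ih =>
    obtain ⟨A, hA⟩ := ih
    refine ⟨Function.update A k (Finset.univ.toList.map f ++ A k), fun v => ?_,
      hA.mono (fun k' s hs => ?_) q⟩
    · rw [Function.update_self]
      simp
    · by_cases h : k' = k
      · subst h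
        rw [Function.update_self]
        exact List.mem_append_right _ hs
      · rw [Function.update_of_ne h]
        exact hs
  | peek k f q ih => exact ih
  | pop k f q ih => exact ih
  | load f q ih => exact ih
  | branch f q₁ q₂ ih₁ ih₂ =>
    obtain ⟨A, hA⟩ := ih₁
    obtain ⟨B, hB⟩ := ih₂
    exact ⟨fun k => A k ++ B k, hA.mono (fun k s hs => List.mem_append_left _ hs) q₁,
      hB.mono (fun k s hs => List.mem_append_right _ hs) q₂⟩
  | goto f => exact ⟨fun _ => [], trivial⟩
  | halt => exact ⟨fun _ => [], trivial⟩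

theorem exists_alph (m : Λ → Stmt Γ Λ σ) (k₀ : K) [Fintype (Γ k₀)] :
    ∃ A : ∀ k, List (Γ k), (∀ l, Ok A (m l)) ∧ ∀ s : Γ k₀, s ∈ A k₀ := by
  choose A hA using fun l => exists_ok (m l)
  have h1 : ∀ l, Ok (fun k => (Finset.univ : Finset Λ).toList.flatMap fun l => A l k) (m l) :=
    fun l => (hA l).mono (fun k s hs => List.mem_flatMap.mpr ⟨l, by simp, hs⟩) (m l)
  refine ⟨Function.update (fun k => (Finset.univ : Finset Λ).toList.flatMap fun l => A l k) k₀
    (Finset.univ.toList ++ (Finset.univ : Finset Λ).toList.flatMap fun l => A l k₀),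
    fun l => (h1 l).mono (fun k s hs => ?_) (m l), fun s => ?_⟩
  · by_cases h : k = k₀
    · subst h
      rw [Function.update_self]
      exact List.mem_append_right _ hs
    · rw [Function.update_of_ne h]
      exact hs
  · rw [Function.update_self]
    simp

/-! ### Correctness of the simulation -/

theorem encS_getD (A : ∀ k, List (Γ k)) (v : σ) (S : ∀ k, List (Γ k)) (k : K) :
    (encS A v S).2.getD (num k) [] = (S k).map (sc (A k)) :=
  tab_getD (fun k : K => (S k).map (sc (A k))) k []

theorem tab_set {X Y : Type} [Fintype X] [DecidableEq X] (f : X → Y) (x : X) (y : Y) :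
    (tab f).set (num x) y = tab (Function.update f x y) := by
  unfold tab num
  apply List.ext_getElem
  · simp
  · intro i h1 h2
    rw [List.getElem_set]
    simp only [List.getElem_ofFn]
    by_cases h : (Fintype.equivFin X x : ℕ) = i
    · rw [if_pos h]
      have : (Fintype.equivFin X).symm ⟨i, by simpa using h2⟩ = x := by
        rw [Equiv.symm_apply_eq]
        exact Fin.ext h.symm
      rw [this, Function.update_self]
    · rw [if_neg h, Function.update_of_ne]
      intro h3
      apply h
      rw [← h3]
      simp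

theorem encS_set (A : ∀ k, List (Γ k)) (v : σ) (S : ∀ k, List (Γ k)) (k : K)
    (l : List (Γ k)) :
    (encS A v S).2.set (num k) (l.map (sc (A k))) = (encS A v (Function.update S k l)).2 := by
  unfold encS
  simp only
  rw [tab_set]
  congr 1
  funext k'
  by_cases h : k' = k
  · subst h
    rw [Function.update_self, Function.update_self]
  · rw [Function.update_of_ne h, Function.update_of_ne h]


theorem hd_spec {X Y : Type} (A S : List X) (hS : ∀ s ∈ S, s ∈ A) (g : Option X → Y) (d : Y) :
    ((none :: A.map some).map g).getD (hd (S.map (sc A))) d = g S.head? := by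
  cases S with
  | nil => rfl
  | cons s l =>
    have h1 : hd ((s :: l).map (sc A)) = sc A s + 1 := rfl
    rw [h1, List.map_cons, List.getD_cons_succ, List.map_map,
      sc_getD A (g ∘ some) s (hS s (by simp)) d]
    rfl

theorem runS_spec (A : ∀ k, List (Γ k)) (q : Stmt Γ Λ σ) :
    ∀ (v : σ) (S : ∀ k, List (Γ k)), Ok A q → (∀ k, ∀ s ∈ S k, s ∈ A k) →
      runS A q (encS A v S) = encC A (stepAux q v S) ∧
        ∀ k, ∀ s ∈ (stepAux q v S).stk k, s ∈ A k := by
  induction q with
  | push k f q ih =>
    intro v S hq hS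
    have hS' : ∀ k', ∀ s ∈ Function.update S k (f v :: S k) k', s ∈ A k' := by
      intro k' s hs
      by_cases h : k' = k
      · subst h
        rw [Function.update_self, List.mem_cons] at hs
        rcases hs with rfl | hs
        · exact hq.1 v
        · exact hS _ s hs
      · rw [Function.update_of_ne h] at hs
        exact hS _ s hs
    have h := ih v (Function.update S k (f v :: S k)) hq.2 hS'
    rw [stepAux]
    refine ⟨?_, h.2⟩
    rw [← h.1]
    show runS A q _ = _
    congr 1
    have h1 : (tab fun v => sc (A k) (f v)).getD (encS A v S).1 0 = sc (A k) (f v) :=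
      tab_getD (fun v => sc (A k) (f v)) v 0
    rw [h1, encS_getD]
    have h2 := encS_set A v S k (f v :: S k)
    rw [List.map_cons] at h2
    rw [h2]
    rfl
  | peek k f q ih =>
    intro v S hq hS
    have h := ih (f v (S k).head?) S hq hS
    rw [stepAux]
    refine ⟨?_, h.2⟩
    rw [← h.1]
    show runS A q _ = _
    congr 1
    have h1 : (tab fun v => (none :: (A k).map some).map fun o => num (f v o)).getD
        (encS A v S).1 [] = (none :: (A k).map some).map fun o => num (f v o) :=
      tab_getD (fun v => (none :: (A k).map some).map fun o => num (f v o)) v []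
    rw [h1, encS_getD, hd_spec (A k) (S k) (hS k) (fun o => num (f v o))]
    rfl
  | pop k f q ih =>
    intro v S hq hS
    have hS' : ∀ k', ∀ s ∈ Function.update S k (S k).tail k', s ∈ A k' := by
      intro k' s hs
      by_cases h : k' = k
      · subst h
        rw [Function.update_self] at hs
        exact hS _ s (List.mem_of_mem_tail hs)
      · rw [Function.update_of_ne h] at hs
        exact hS _ s hs
    have h := ih (f v (S k).head?) (Function.update S k (S k).tail) hq hS'
    rw [stepAux]
    refine ⟨?_, h.2⟩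
    rw [← h.1]
    show runS A q _ = _
    congr 1
    have h1 : (tab fun v => (none :: (A k).map some).map fun o => num (f v o)).getD
        (encS A v S).1 [] = (none :: (A k).map some).map fun o => num (f v o) :=
      tab_getD (fun v => (none :: (A k).map some).map fun o => num (f v o)) v []
    rw [h1, encS_getD, hd_spec (A k) (S k) (hS k) (fun o => num (f v o))]
    have h2 := encS_set A v S k (S k).tail
    rw [List.map_tail] at h2
    rw [h2]
    rfl
  | load f q ih =>
    intro v S hq hS
    have h := ih (f v) S hq hS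
    rw [stepAux]
    refine ⟨?_, h.2⟩
    rw [← h.1]
    show runS A q _ = _
    congr 1
    have h1 : (tab fun v => num (f v)).getD (encS A v S).1 0 = num (f v) :=
      tab_getD (fun v => num (f v)) v 0
    rw [h1]
    rfl
  | branch f q₁ q₂ ih₁ ih₂ =>
    intro v S hq hS
    have h1 : (tab f).getD (encS A v S).1 false = f v := tab_getD f v false
    have h2 : runS A (.branch f q₁ q₂) (encS A v S) =
        bif f v then runS A q₁ (encS A v S) else runS A q₂ (encS A v S) := by
      show (bif (tab f).getD (encS A v S).1 false then _ else _) = _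
      rw [h1]
    rw [h2, stepAux]
    cases f v with
    | true => exact ih₁ v S hq.1 hS
    | false => exact ih₂ v S hq.2 hS
  | goto f =>
    intro v S hq hS
    refine ⟨?_, hS⟩
    have h1 : (tab fun v => num (f v)).getD (encS A v S).1 0 = num (f v) :=
      tab_getD (fun v => num (f v)) v 0
    show ((tab fun v => num (f v)).getD (encS A v S).1 0 + 1, encS A v S) = _
    rw [h1]
    rfl
  | halt =>
    intro v S hq hS
    exact ⟨rfl, hS⟩


/-! ### Polynomial time -/

theorem hd_pt {α : Type} [Enc α] {f : α → List ℕ} (hf : PolyTime f) :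
    PolyTime (fun a => hd (f a)) := by
  unfold hd
  fun_prop

theorem runS_pt (A : ∀ k, List (Γ k)) (q : Stmt Γ Λ σ) : PolyTime (runS A q) := by
  induction q with
  | push k f q ih =>
    exact ih.comp (f := fun x : ℕ × List (List ℕ) =>
      (x.1, x.2.set (num k) ((tab fun v => sc (A k) (f v)).getD x.1 0 ::
        x.2.getD (num k) []))) (by fun_prop)
  | peek k f q ih =>
    have h1 : PolyTime (fun x : ℕ × List (List ℕ) => hd (x.2.getD (num k) [])) :=
      hd_pt (by fun_prop)
    have h2 : PolyTime (fun x : ℕ × List (List ℕ) =>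
      ((tab fun v => (none :: (A k).map some).map fun o => num (f v o)).getD x.1 []).getD
        (hd (x.2.getD (num k) [])) 0) := PolyTime.getD (by fun_prop) h1 0
    exact ih.comp (f := fun x : ℕ × List (List ℕ) =>
      (((tab fun v => (none :: (A k).map some).map fun o => num (f v o)).getD x.1 []).getD
        (hd (x.2.getD (num k) [])) 0, x.2)) (h2.pair PolyTime.snd)
  | pop k f q ih =>
    have h1 : PolyTime (fun x : ℕ × List (List ℕ) => hd (x.2.getD (num k) [])) :=
      hd_pt (by fun_prop)
    have h2 : PolyTime (fun x : ℕ × List (List ℕ) =>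
      ((tab fun v => (none :: (A k).map some).map fun o => num (f v o)).getD x.1 []).getD
        (hd (x.2.getD (num k) [])) 0) := PolyTime.getD (by fun_prop) h1 0
    exact ih.comp (f := fun x : ℕ × List (List ℕ) =>
      (((tab fun v => (none :: (A k).map some).map fun o => num (f v o)).getD x.1 []).getD
        (hd (x.2.getD (num k) [])) 0, x.2.set (num k) (x.2.getD (num k) []).tail))
      (h2.pair (by fun_prop))
  | load f q ih =>
    exact ih.comp (f := fun x : ℕ × List (List ℕ) =>
      ((tab fun v => num (f v)).getD x.1 0, x.2)) (by fun_prop)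
  | branch f q₁ q₂ ih₁ ih₂ =>
    refine (PolyTime.cond (c := fun x : ℕ × List (List ℕ) => (tab f).getD x.1 false)
      (by fun_prop) ih₁ ih₂).congr fun x => ?_
    show _ = bif (tab f).getD x.1 false then runS A q₁ x else runS A q₂ x
    cases (tab f).getD x.1 false <;> rfl
  | goto f =>
    show PolyTime (fun x : ℕ × List (List ℕ) => ((tab fun v => num (f v)).getD x.1 0 + 1, x))
    fun_prop
  | halt =>
    show PolyTime (fun x : ℕ × List (List ℕ) => ((0 : ℕ), x))
    fun_prop

/-- One step on the codes. -/
noncomputable def stepC (A : ∀ k, List (Γ k)) (m : Λ → Stmt Γ Λ σ) (L : List Λ) :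
    ℕ × (ℕ × List (List ℕ)) → ℕ × (ℕ × List (List ℕ)) :=
  L.foldr (fun l acc => fun x => if x.1 = num l + 1 then runS A (m l) x.2 else acc x) id

theorem stepC_pt (A : ∀ k, List (Γ k)) (m : Λ → Stmt Γ Λ σ) (L : List Λ) :
    PolyTime (stepC A m L) := by
  induction L with
  | nil => exact PolyTime.id
  | cons l L ih =>
    have h1 : PolyTime (fun x : ℕ × (ℕ × List (List ℕ)) => runS A (m l) x.2) :=
      (runS_pt A (m l)).comp PolyTime.snd
    have h2 : PolyTime (fun x : ℕ × (ℕ × List (List ℕ)) =>
      if x.1 = num l + 1 then runS A (m l) x.2 else stepC A m L x) := by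
      fun_prop
    exact h2

theorem stepC_some (A : ∀ k, List (Γ k)) (m : Λ → Stmt Γ Λ σ) (L : List Λ) (l : Λ) (hl : l ∈ L)
    (x : ℕ × List (List ℕ)) : stepC A m L (num l + 1, x) = runS A (m l) x := by
  induction L with
  | nil => simp at hl
  | cons l' L ih =>
    show (if num l + 1 = num l' + 1 then runS A (m l') x else stepC A m L (num l + 1, x)) = _
    by_cases h : l = l'
    · subst h
      rw [if_pos rfl]
    · rw [if_neg (fun h' => h (num_inj (Nat.succ_injective h'))),
        ih (by simpa [h] using hl)]

theorem stepC_none (A : ∀ k, List (Γ k)) (m : Λ → Stmt Γ Λ σ) (L : List Λ)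
    (x : ℕ × List (List ℕ)) : stepC A m L (0, x) = (0, x) := by
  induction L with
  | nil => rfl
  | cons l' L ih =>
    show (if 0 = num l' + 1 then runS A (m l') x else stepC A m L (0, x)) = _
    rw [if_neg (by omega), ih]

/-! ### Size bounds -/

theorem tab_getD_le {X : Type} [Fintype X] (f : X → ℕ) :
    ∃ c, ∀ i, (tab f).getD i 0 ≤ c := by
  refine ⟨(tab f).sum, fun i => ?_⟩
  rcases lt_or_ge i (tab f).length with h | h
  · rw [List.getD_eq_getElem _ _ h]
    exact List.single_le_sum (fun x _ => Nat.zero_le x) _ (List.getElem_mem h)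
  · rw [List.getD_eq_default _ _ h]
    exact Nat.zero_le _

theorem getD_le_sum (l : List ℕ) (i : ℕ) : l.getD i 0 ≤ l.sum := by
  rcases lt_or_ge i l.length with h | h
  · rw [List.getD_eq_getElem _ _ h]
    exact List.single_le_sum (fun x _ => Nat.zero_le x) _ (List.getElem_mem h)
  · rw [List.getD_eq_default _ _ h]
    exact Nat.zero_le _

theorem tab_getD_getD_le {X : Type} [Fintype X] (f : X → List ℕ) :
    ∃ c, ∀ i j, ((tab f).getD i []).getD j 0 ≤ c := by
  refine ⟨((tab f).map List.sum).sum, fun i j => ?_⟩
  rcases lt_or_ge i (tab f).length with h | h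
  · rw [List.getD_eq_getElem _ _ h]
    refine (getD_le_sum _ j).trans ?_
    exact List.single_le_sum (fun x _ => Nat.zero_le x) _
      (List.mem_map.mpr ⟨_, List.getElem_mem h, rfl⟩)
  · rw [List.getD_eq_default _ _ h]
    simp

theorem esz_set (S : List (List ℕ)) (k : ℕ) (l : List ℕ) :
    esz (S.set k l) + 2 * esz (S.getD k []) ≤ esz S + 2 * esz l := by
  induction S generalizing k with
  | nil => simp [esz_nil]
  | cons a S ih =>
    cases k with
    | zero =>
      rw [List.set_cons_zero, List.getD_cons_zero, esz_cons, esz_cons]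
      omega
    | succ k =>
      rw [List.set_cons_succ, List.getD_cons_succ, esz_cons, esz_cons]
      have := ih k
      omega

theorem esz_tail (l : List ℕ) : esz l.tail ≤ esz l := by
  cases l with
  | nil => exact le_rfl
  | cons a l =>
    rw [List.tail_cons, esz_cons]
    omega

theorem runS_bd (A : ∀ k, List (Γ k)) (q : Stmt Γ Λ σ) :
    ∃ c, ∀ x, (runS A q x).1 ≤ c ∧ (runS A q x).2.1 ≤ max x.1 c ∧
      esz (runS A q x).2.2 ≤ esz x.2 + c := by
  induction q with
  | push k f q ih =>
    obtain ⟨c, hc⟩ := ih
    obtain ⟨d, hd⟩ := tab_getD_le fun v => sc (A k) (f v)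
    refine ⟨c + 2 * (2 * d + 1), fun x => ?_⟩
    obtain ⟨h1, h2, h3⟩ := hc (x.1, x.2.set (num k) ((tab fun v => sc (A k) (f v)).getD x.1 0 ::
        x.2.getD (num k) []))
    have h4 := esz_set x.2 (num k) ((tab fun v => sc (A k) (f v)).getD x.1 0 ::
        x.2.getD (num k) [])
    rw [esz_cons, esz_nat] at h4
    have h5 := hd x.1
    refine ⟨h1.trans (by omega), h2.trans ?_, h3.trans ?_⟩
    · show max x.1 c ≤ _
      omega
    · show esz (x.2.set (num k) _) + c ≤ _
      omega
  | peek k f q ih =>
    obtain ⟨c, hc⟩ := ih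
    obtain ⟨d, hd⟩ := tab_getD_getD_le fun v => (none :: (A k).map some).map fun o => num (f v o)
    refine ⟨c + d, fun x => ?_⟩
    obtain ⟨h1, h2, h3⟩ := hc
      (((tab fun v => (none :: (A k).map some).map fun o => num (f v o)).getD x.1 []).getD
        (ETH.hd (x.2.getD (num k) [])) 0, x.2)
    have h5 := hd x.1 (ETH.hd (x.2.getD (num k) []))
    refine ⟨h1.trans (by omega), h2.trans ?_, h3.trans ?_⟩
    · show max (((tab fun v => (none :: (A k).map some).map fun o => num (f v o)).getD x.1
        []).getD (ETH.hd (x.2.getD (num k) [])) 0) c ≤ _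
      omega
    · show esz x.2 + c ≤ _
      omega
  | pop k f q ih =>
    obtain ⟨c, hc⟩ := ih
    obtain ⟨d, hd⟩ := tab_getD_getD_le fun v => (none :: (A k).map some).map fun o => num (f v o)
    refine ⟨c + d, fun x => ?_⟩
    obtain ⟨h1, h2, h3⟩ := hc
      (((tab fun v => (none :: (A k).map some).map fun o => num (f v o)).getD x.1 []).getD
        (ETH.hd (x.2.getD (num k) [])) 0, x.2.set (num k) (x.2.getD (num k) []).tail)
    have h5 := hd x.1 (ETH.hd (x.2.getD (num k) []))
    have h4 := esz_set x.2 (num k) (x.2.getD (num k) []).tail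
    have h6 := esz_tail (x.2.getD (num k) [])
    refine ⟨h1.trans (by omega), h2.trans ?_, h3.trans ?_⟩
    · show max (((tab fun v => (none :: (A k).map some).map fun o => num (f v o)).getD x.1
        []).getD (ETH.hd (x.2.getD (num k) [])) 0) c ≤ _
      omega
    · show esz (x.2.set (num k) _) + c ≤ _
      omega
  | load f q ih =>
    obtain ⟨c, hc⟩ := ih
    obtain ⟨d, hd⟩ := tab_getD_le fun v => num (f v)
    refine ⟨c + d, fun x => ?_⟩
    obtain ⟨h1, h2, h3⟩ := hc ((tab fun v => num (f v)).getD x.1 0, x.2)
    have h5 := hd x.1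
    refine ⟨h1.trans (by omega), h2.trans ?_, h3.trans ?_⟩
    · show max ((tab fun v => num (f v)).getD x.1 0) c ≤ _
      omega
    · show esz x.2 + c ≤ _
      omega
  | branch f q₁ q₂ ih₁ ih₂ =>
    obtain ⟨c, hc⟩ := ih₁
    obtain ⟨d, hd⟩ := ih₂
    refine ⟨c + d, fun x => ?_⟩
    have h : runS A (.branch f q₁ q₂) x =
        bif (tab f).getD x.1 false then runS A q₁ x else runS A q₂ x := rfl
    rw [h]
    cases (tab f).getD x.1 false with
    | true =>
      obtain ⟨h1, h2, h3⟩ := hc x
      exact ⟨h1.trans (by omega), h2.trans (by omega), h3.trans (by omega)⟩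
    | false =>
      obtain ⟨h1, h2, h3⟩ := hd x
      exact ⟨h1.trans (by omega), h2.trans (by omega), h3.trans (by omega)⟩
  | goto f =>
    obtain ⟨d, hd⟩ := tab_getD_le fun v => num (f v)
    refine ⟨d + 1, fun x => ?_⟩
    have h5 := hd x.1
    show (tab fun v => num (f v)).getD x.1 0 + 1 ≤ d + 1 ∧ x.1 ≤ max x.1 (d + 1) ∧
      esz x.2 ≤ esz x.2 + (d + 1)
    omega
  | halt =>
    refine ⟨0, fun x => ?_⟩
    show 0 ≤ 0 ∧ x.1 ≤ max x.1 0 ∧ esz x.2 ≤ esz x.2 + 0
    omega

theorem stepC_bd (A : ∀ k, List (Γ k)) (m : Λ → Stmt Γ Λ σ) (L : List Λ) :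
    ∃ c, ∀ x, (stepC A m L x).1 ≤ max x.1 c ∧ (stepC A m L x).2.1 ≤ max x.2.1 c ∧
      esz (stepC A m L x).2.2 ≤ esz x.2.2 + c := by
  induction L with
  | nil => exact ⟨0, fun x => ⟨le_max_left _ _, le_max_left _ _, le_rfl⟩⟩
  | cons l L ih =>
    obtain ⟨c, hc⟩ := ih
    obtain ⟨d, hd⟩ := runS_bd A (m l)
    refine ⟨c + d, fun x => ?_⟩
    have h : stepC A m (l :: L) x =
        if x.1 = num l + 1 then runS A (m l) x.2 else stepC A m L x := rfl
    rw [h]
    by_cases h' : x.1 = num l + 1
    · rw [if_pos h']
      obtain ⟨h1, h2, h3⟩ := hd x.2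
      exact ⟨h1.trans (by omega), h2.trans (by omega), h3.trans (by omega)⟩
    · rw [if_neg h']
      obtain ⟨h1, h2, h3⟩ := hc x
      exact ⟨h1.trans (by omega), h2.trans (by omega), h3.trans (by omega)⟩

theorem iter_bd (A : ∀ k, List (Γ k)) (m : Λ → Stmt Γ Λ σ) (L : List Λ) :
    ∃ c, ∀ x t, ((stepC A m L)^[t] x).1 ≤ max x.1 c ∧ ((stepC A m L)^[t] x).2.1 ≤ max x.2.1 c ∧
      esz ((stepC A m L)^[t] x).2.2 ≤ esz x.2.2 + t * c := by
  obtain ⟨c, hc⟩ := stepC_bd A m L
  refine ⟨c, fun x t => ?_⟩
  induction t with
  | zero => exact ⟨le_max_left _ _, le_max_left _ _, by simp⟩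
  | succ t ih =>
    rw [Function.iterate_succ_apply']
    obtain ⟨h1, h2, h3⟩ := hc ((stepC A m L)^[t] x)
    obtain ⟨i1, i2, i3⟩ := ih
    refine ⟨h1.trans (by omega), h2.trans (by omega), h3.trans ?_⟩
    rw [Nat.succ_mul]
    omega

theorem iter_pt {α : Type} [Enc α] (A : ∀ k, List (Γ k)) (m : Λ → Stmt Γ Λ σ) (L : List Λ)
    {f : α → ℕ × (ℕ × List (List ℕ))} {t : α → ℕ} (hf : PolyTime f) (ht : PolyTime t) :
    PolyTime (fun a => (stepC A m L)^[t a] (f a)) := by
  obtain ⟨c, hc⟩ := iter_bd A m L
  refine PolyTime.iterate (g := f) (h := fun p : α × (ℕ × (ℕ × List (List ℕ))) =>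
    stepC A m L p.2) ht hf ((stepC_pt A m L).comp PolyTime.snd)
    ⟨fun a => 2 * (esz (f a) + c) + 1 + (2 * (esz (f a) + c) + 1 + (esz (f a) + t a * c)), ?_, ?_⟩
  · have h1 : Bdd (fun a => esz (f a)) := hf.bdd
    have h2 : Bdd t := bdd_nat ht
    exact (((Bdd.const 2).mul (h1.add (Bdd.const c))).add (Bdd.const 1)).add
      ((((Bdd.const 2).mul (h1.add (Bdd.const c))).add (Bdd.const 1)).add
        (h1.add (h2.mul (Bdd.const c))))
  · intro a i hi
    obtain ⟨h1, h2, h3⟩ := hc (f a) i
    have e1 : esz (f a) = 2 * (f a).1 + 1 + (2 * (f a).2.1 + 1 + esz (f a).2.2) := by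
      rw [show f a = ((f a).1, ((f a).2.1, (f a).2.2)) from rfl, esz_pair, esz_pair, esz_nat,
        esz_nat]
    have e2 : esz ((stepC A m L)^[i] (f a)) = 2 * ((stepC A m L)^[i] (f a)).1 + 1 +
        (2 * ((stepC A m L)^[i] (f a)).2.1 + 1 + esz ((stepC A m L)^[i] (f a)).2.2) := by
      rw [show (stepC A m L)^[i] (f a) = (((stepC A m L)^[i] (f a)).1,
        (((stepC A m L)^[i] (f a)).2.1, ((stepC A m L)^[i] (f a)).2.2)) from rfl, esz_pair,
        esz_pair, esz_nat, esz_nat]
    show esz ((stepC A m L)^[i] (f a)) ≤
      2 * (esz (f a) + c) + 1 + (2 * (esz (f a) + c) + 1 + (esz (f a) + t a * c))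
    rw [e2]
    have h4 : i * c ≤ t a * c := Nat.mul_le_mul_right _ hi
    omega


end general

section machine

open Turing

variable (tm : FinTM2) (eIn : tm.Γ tm.k₀ ≃ Option Bool) (eOut : tm.Γ tm.k₁ ≃ Option Bool)

/-- Finite alphabets for the stacks. -/
noncomputable def alph : ∀ k, List (tm.Γ k) :=
  letI := tm.kFin
  letI := tm.ΛFin
  letI := tm.σFin
  letI := tm.Γk₀Fin
  (exists_alph (Γ := tm.Γ) tm.m tm.k₀).choose

theorem alph_ok (l : tm.Λ) : Ok (alph tm) (tm.m l) := by
  let := tm.kFin
  let := tm.ΛFin
  let := tm.σFin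
  let := tm.Γk₀Fin
  exact (exists_alph (Γ := tm.Γ) tm.m tm.k₀).choose_spec.1 l

theorem alph_in (s : tm.Γ tm.k₀) : s ∈ alph tm tm.k₀ := by
  let := tm.kFin
  let := tm.ΛFin
  let := tm.σFin
  let := tm.Γk₀Fin
  exact (exists_alph (Γ := tm.Γ) tm.m tm.k₀).choose_spec.2 s

/-- The code of the initial configuration. -/
noncomputable def initC (u : List (Option Bool)) : ℕ × (ℕ × List (List ℕ)) :=
  letI := tm.kFin
  letI := tm.ΛFin
  letI := tm.σFin
  (num tm.main + 1, (num tm.initialState,
    (List.replicate (Fintype.card tm.K) ([] : List ℕ)).set (num tm.k₀)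
      (u.map fun b => sc (alph tm tm.k₀) (eIn.symm b))))

/-- The code of the configuration after `t` steps. -/
noncomputable def confC (u : List (Option Bool)) (t : ℕ) : ℕ × (ℕ × List (List ℕ)) :=
  letI := tm.kFin
  letI := tm.ΛFin
  letI := tm.σFin
  (stepC (alph tm) tm.m (Finset.univ : Finset tm.Λ).toList)^[t] (initC tm eIn u)

/-- The clocked machine: the output after at most `t` steps, `none` if the machine has not
halted. -/
noncomputable def clock (u : List (Option Bool)) (t : ℕ) : Option (List (Option Bool)) :=
  letI := tm.kFin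
  if (confC tm eIn u t).1 = 0 then
    some (((confC tm eIn u t).2.2.getD (num tm.k₁) []).map fun s =>
      ((alph tm tm.k₁).map eOut).getD s none)
  else none

theorem optBool_pt {β : Type} [Enc β] (g : Option Bool → β) : PolyTime g := by
  refine (PolyTime.optCases (o := fun a : Option Bool => a) (f := fun _ => g none)
    (g := fun _ b => bif b then g (some true) else g (some false)) (by fun_prop) (by fun_prop)
    (by fun_prop)).congr fun a => ?_
  cases a with
  | none => rfl
  | some b => cases b <;> rfl

theorem initC_pt : PolyTime (initC tm eIn) := by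
  let := tm.kFin
  let := tm.ΛFin
  let := tm.σFin
  have h1 : PolyTime (fun b : Option Bool => sc (alph tm tm.k₀) (eIn.symm b)) := optBool_pt _
  have h2 : PolyTime (fun u : List (Option Bool) =>
      u.map fun b => sc (alph tm tm.k₀) (eIn.symm b)) :=
    PolyTime.map PolyTime.id (h1.comp PolyTime.snd)
  have h3 : PolyTime (fun u : List (Option Bool) =>
      (List.replicate (Fintype.card tm.K) ([] : List ℕ)).set (num tm.k₀)
      (u.map fun b => sc (alph tm tm.k₀) (eIn.symm b))) :=
    PolyTime.set (PolyTime.const _) (PolyTime.const _) h2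
  exact (PolyTime.const (num tm.main + 1)).pair ((PolyTime.const (num tm.initialState)).pair h3)

/-- The clocked machine is a polynomial time function. -/
theorem clock_pt : PolyTime (fun p : List (Option Bool) × ℕ => clock tm eIn eOut p.1 p.2) := by
  let := tm.kFin
  let := tm.ΛFin
  let := tm.σFin
  have h1 : PolyTime (fun p : List (Option Bool) × ℕ => confC tm eIn p.1 p.2) :=
    iter_pt (alph tm) tm.m _ ((initC_pt tm eIn).comp PolyTime.fst) PolyTime.snd
  have h2 : PolyTime (fun s : ℕ => ((alph tm tm.k₁).map eOut).getD s none) :=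
    PolyTime.getD (PolyTime.const _) PolyTime.id none
  have h3 : PolyTime (fun p : List (Option Bool) × ℕ =>
      ((confC tm eIn p.1 p.2).2.2.getD (num tm.k₁) []).map fun s =>
      ((alph tm tm.k₁).map eOut).getD s none) :=
    PolyTime.map (PolyTime.getD (PolyTime.snd.comp (PolyTime.snd.comp h1)) (PolyTime.const _) [])
      (h2.comp PolyTime.snd)
  unfold clock
  fun_prop

/-! ### Specification -/

/-- One step, halting configurations are kept. -/
def stepT (c : tm.Cfg) : tm.Cfg := (tm.step c).getD c

/-- All symbols on the stacks are in the alphabets. -/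
def ValidC (c : tm.Cfg) : Prop := ∀ k, ∀ s ∈ c.stk k, s ∈ alph tm k

/-- The code of a configuration of the machine. -/
noncomputable def encM (c : tm.Cfg) : ℕ × (ℕ × List (List ℕ)) :=
  letI := tm.kFin
  letI := tm.ΛFin
  letI := tm.σFin
  encC (Γ := tm.Γ) (Λ := tm.Λ) (σ := tm.σ) (alph tm) c

theorem stepC_spec (c : tm.Cfg) (hc : ValidC tm c) :
    (letI := tm.kFin
    letI := tm.ΛFin
    letI := tm.σFin
    stepC (alph tm) tm.m (Finset.univ : Finset tm.Λ).toList (encM tm c)) = encM tm (stepT tm c) ∧
      ValidC tm (stepT tm c) := by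
  let := tm.kFin
  let := tm.ΛFin
  let := tm.σFin
  obtain ⟨l, v, S⟩ := c
  cases l with
  | none => exact ⟨stepC_none _ _ _ _, hc⟩
  | some l =>
    have h1 := runS_spec (Λ := tm.Λ) (σ := tm.σ) (alph tm) (tm.m l) v S (alph_ok tm l) hc
    refine ⟨?_, h1.2⟩
    show stepC (alph tm) tm.m (Finset.univ : Finset tm.Λ).toList
      (num l + 1, encS (alph tm) v S) = _
    rw [stepC_some _ _ _ l (by simp), h1.1]
    rfl

theorem initC_spec (u : List (Option Bool)) :
    initC tm eIn u = encM tm (initList tm (u.map fun b => eIn.symm b)) ∧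
      ValidC tm (initList tm (u.map fun b => eIn.symm b)) := by
  let := tm.kFin
  let := tm.ΛFin
  let := tm.σFin
  constructor
  · unfold initC encM encC encS
    refine Prod.ext rfl (Prod.ext rfl ?_)
    show (List.replicate (Fintype.card tm.K) ([] : List ℕ)).set (num tm.k₀)
      (u.map fun b => sc (alph tm tm.k₀) (eIn.symm b)) = _
    have h1 : List.replicate (Fintype.card tm.K) ([] : List ℕ) =
        tab (fun _ : tm.K => ([] : List ℕ)) := by
      unfold tab
      rw [List.ofFn_const]
    rw [h1, tab_set]
    show _ = tab fun k => List.map (sc (alph tm k))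
      ((initList tm (List.map (fun b => eIn.symm b) u)).stk k)
    have h2 : (Function.update (fun _ => []) tm.k₀
        (List.map (fun b => sc (alph tm tm.k₀) (eIn.symm b)) u) : tm.K → List ℕ) =
        fun k => List.map (sc (alph tm k))
          ((initList tm (List.map (fun b => eIn.symm b) u)).stk k) := by
      funext k
      by_cases h : k = tm.k₀
      · subst h
        rw [Function.update_self]
        simp [initList, List.map_map, Function.comp_def]
      · rw [Function.update_of_ne h]
        simp [initList, h]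
    rw [h2]
  · intro k s hs
    by_cases h : k = tm.k₀
    · subst h
      exact alph_in tm s
    · simp [initList, h] at hs

theorem confC_spec (u : List (Option Bool)) (t : ℕ) :
    confC tm eIn u t = encM tm ((stepT tm)^[t] (initList tm (u.map fun b => eIn.symm b))) ∧
      ValidC tm ((stepT tm)^[t] (initList tm (u.map fun b => eIn.symm b))) := by
  let := tm.kFin
  let := tm.ΛFin
  let := tm.σFin
  induction t with
  | zero => exact initC_spec tm eIn u
  | succ t ih =>
    have h1 := stepC_spec tm _ ih.2
    rw [Function.iterate_succ_apply']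
    refine ⟨?_, h1.2⟩
    rw [← h1.1, ← ih.1]
    unfold confC
    rw [Function.iterate_succ_apply']

theorem evals_stepT (j : ℕ) : ∀ (c c' : tm.Cfg),
    (flip bind tm.step)^[j] (some c) = some c' →
      (stepT tm)^[j] c = c' ∧ ∀ i < j, ((stepT tm)^[i] c).l ≠ none := by
  induction j with
  | zero =>
    intro c c' h
    exact ⟨Option.some_injective _ h, fun i hi => absurd hi (Nat.not_lt_zero i)⟩
  | succ j ih =>
    intro c c' h
    rw [Function.iterate_succ_apply] at h
    have h0 : flip bind tm.step (some c) = tm.step c := rfl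
    rw [h0] at h
    cases hs : tm.step c with
    | none =>
      rw [hs] at h
      exfalso
      have : ∀ n, (flip bind tm.step)^[n] none = none := by
        intro n
        induction n with
        | zero => rfl
        | succ n ihn => rw [Function.iterate_succ_apply', ihn]; rfl
      rw [this] at h
      cases h
    | some c1 =>
      rw [hs] at h
      obtain ⟨h1, h2⟩ := ih c1 c' h
      have h3 : stepT tm c = c1 := by
        unfold stepT
        rw [hs]
        rfl
      refine ⟨by rw [Function.iterate_succ_apply, h3, h1], ?_⟩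
      intro i hi
      cases i with
      | zero =>
        show c.l ≠ none
        intro hl
        obtain ⟨l, v, S⟩ := c
        subst hl
        cases hs
      | succ i =>
        rw [Function.iterate_succ_apply, h3]
        exact h2 i (by omega)

theorem stepT_halt (c : tm.Cfg) (h : c.l = none) (n : ℕ) : (stepT tm)^[n] c = c := by
  have h1 : stepT tm c = c := by
    obtain ⟨l, v, S⟩ := c
    subst h
    rfl
  induction n with
  | zero => rfl
  | succ n ih => rw [Function.iterate_succ_apply', ih, h1]

theorem clock_halt (u v : List (Option Bool)) (t : ℕ)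
    (h : (stepT tm)^[t] (initList tm (u.map fun b => eIn.symm b)) =
      haltList tm (v.map fun b => eOut.symm b)) : clock tm eIn eOut u t = some v := by
  let := tm.kFin
  let := tm.ΛFin
  let := tm.σFin
  obtain ⟨h1, h2⟩ := confC_spec tm eIn u t
  rw [h] at h1 h2
  unfold clock
  rw [h1]
  have h3 : (encM tm (haltList tm (v.map fun b => eOut.symm b))).1 = 0 := rfl
  rw [if_pos h3]
  congr 1
  have h4 : (encM tm (haltList tm (v.map fun b => eOut.symm b))).2.2.getD (num tm.k₁) [] =
      ((haltList tm (v.map fun b => eOut.symm b)).stk tm.k₁).map (sc (alph tm tm.k₁)) :=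
    tab_getD (fun k : tm.K => ((haltList tm (v.map fun b => eOut.symm b)).stk k).map
      (sc (alph tm k))) tm.k₁ []
  rw [h4, List.map_map]
  have h5 : (haltList tm (v.map fun b => eOut.symm b)).stk tm.k₁ =
      v.map fun b => eOut.symm b := by
    simp [haltList]
  have h6 : ((haltList tm (v.map fun b => eOut.symm b)).stk tm.k₁).map
      ((fun s => ((alph tm tm.k₁).map eOut).getD s none) ∘ sc (alph tm tm.k₁)) =
      ((haltList tm (v.map fun b => eOut.symm b)).stk tm.k₁).map eOut := by
    apply List.map_congr_left
    intro s hs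
    exact sc_getD (alph tm tm.k₁) eOut s (h2 tm.k₁ s hs) none
  rw [h6, h5, List.map_map]
  conv_rhs => rw [← List.map_id v]
  apply List.map_congr_left
  intro b _
  simp

theorem clock_run (u : List (Option Bool)) (t : ℕ)
    (h : ((stepT tm)^[t] (initList tm (u.map fun b => eIn.symm b))).l ≠ none) :
    clock tm eIn eOut u t = none := by
  let := tm.kFin
  let := tm.ΛFin
  let := tm.σFin
  obtain ⟨h1, h2⟩ := confC_spec tm eIn u t
  unfold clock
  rw [h1, if_neg]
  intro h3
  apply h
  generalize ((stepT tm)^[t] (initList tm (u.map fun b => eIn.symm b))) = c at h3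
  obtain ⟨l, v, S⟩ := c
  cases l with
  | none => rfl
  | some l =>
    exfalso
    have : (encM tm ⟨some l, v, S⟩).1 = num l + 1 := rfl
    rw [this] at h3
    omega

/-- Specification of the clocked machine: if the machine halts with output `v` after at most `s`
steps, then the clocked machine outputs `v` for every number of steps `≥ s`, and either `v` or
`none` for every number of steps. -/
theorem clock_spec (u v : List (Option Bool)) (s : ℕ)
    (h : Nonempty (StateTransition.EvalsToInTime tm.step (initList tm (u.map fun b => eIn.symm b))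
      (some (haltList tm (v.map fun b => eOut.symm b))) s)) (t : ℕ) :
    (s ≤ t → clock tm eIn eOut u t = some v) ∧
      (clock tm eIn eOut u t = none ∨ clock tm eIn eOut u t = some v) := by
  obtain ⟨⟨n, hn⟩, hs⟩ := h
  have hn' : (flip bind tm.step)^[n] (some (initList tm (u.map fun b => eIn.symm b))) =
    some (haltList tm (v.map fun b => eOut.symm b)) := hn
  obtain ⟨h1, h2⟩ := evals_stepT tm n _ _ hn'
  have h3 : ∀ t, n ≤ t → clock tm eIn eOut u t = some v := by
    intro t ht
    apply clock_halt
    obtain ⟨j, rfl⟩ := Nat.exists_eq_add_of_le ht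
    rw [Nat.add_comm, Function.iterate_add_apply, h1]
    exact stepT_halt tm _ rfl j
  refine ⟨fun hst => h3 t (hs.trans hst), ?_⟩
  rcases Nat.lt_or_ge t n with hlt | hge
  · exact Or.inl (clock_run tm eIn eOut u t (h2 t hlt))
  · exact Or.inr (h3 t hge)

end machine

end Pool.Agent.Helper50.ETH
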